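import Pool.Agent.Q239.PC.Asm
import Pool.Agent.Q239.PC.CL
import Pool.Agent.Q239.PC.SEP
import Pool.Agent.Q239.PC.P
import Pool.Agent.Q239.PC.P2
import Pool.Agent.Q239.PC.P3
import Pool.Agent.Q239.PC.DEG
import Pool.Agent.Q239.PC.TOR
import Pool.Agent.Q239.PC.TOC
import Pool.Agent.Q239.PC.TP
import Pool.Agent.Q239.PC.TW
import Pool.Agent.Q239.PC.FO
import Pool.Agent.Q239.PC.TR
import Pool.Agent.Q239.PC.BF
import Pool.Agent.Q239.PC.ED
import Pool.Agent.Q239.PC.EDC
import Pool.Agent.Q239.PC.EV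
import Pool.Agent.Q239.PC.ODC

set_option autoImplicit false

/-!
MP_520f61_co, Q1: the complete determination of `S(d, k)` for all `d ≥ k ≥ 0`.

`S d k` is the set of all `l` such that in every finite simple `d`-regular `k`-connected graph
every path with exactly `l` edges is contained in a cycle (definitions in
`Pool.Agent.Q239.PC.Def`).
-/

namespace Pool.Agent.Results.MP_520f61_co.PathClosingSets

open Pool.Agent.Q239.PC

/-- `S(0, 0) = {l ≥ 1}`, `S(1, k) = {l ≥ 2}`, `S(2, k)` is everything; for `d ≥ 3` and `k ≤ 1` the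
set is `{0, 1}` if `d` is even and empty if `d` is odd; `S(3, 3) = {0, 1, 2, 3, 4}`, and for all
other `d ≥ 3`, `2 ≤ k ≤ d` it is `{0, ..., k}`. -/
theorem result (d k : ℕ) (hkd : k ≤ d) :
    S d k =
      if d = 0 then {l | 1 ≤ l}
      else if d = 1 then {l | 2 ≤ l}
      else if d = 2 then Set.univ
      else if k ≤ 1 then (if Even d then {l | l ≤ 1} else ∅)
      else if d = 3 ∧ k = 3 then {l | l ≤ 4}
      else {l | l ≤ k} :=
  main sep p0 p1 p2 p3 p4 deg tor_reg toc tp1 tp2 twr twc twp for_rs foc trr trc bf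
    edr edc evn_all odg_all odc d k hkd

end Pool.Agent.Results.MP_520f61_co.PathClosingSets
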